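import Mathlib
import Pool.Agent.Helper5.RV.Defs

/-!
# One message to every clerk

Conversations in which Bob sends one message, and the converse: if Bob sends the whole side `12` to
the clerk of every vertex of class `0`, the sum of the votes decides all tripartite instances.
-/

set_option autoImplicit false

namespace Pool.Agent.Helper95.RV

open Pool.Agent.Helper22.ETModel Pool.Agent.Helper8.VT Pool.Agent.Helper5.RV

/-- A message of `b` bits from Bob to the clerk is a conversation. -/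
theorem oneway {n : ℕ} (b : ℕ) (h : Wts n → Fin (2 ^ b)) (g : Wts n → Fin (2 ^ b) → ℝ) :
    ∃ P : Conv n 0 b, ∀ A C, P.eval A C = g A (h C) := by
  induction b with
  | zero =>
    refine ⟨.vote fun A => g A ⟨0, by norm_num⟩, fun A C => ?_⟩
    have : h C = ⟨0, by norm_num⟩ := by
      apply Fin.ext
      have := (h C).isLt
      simp at this
      simp
    rw [this]
    rfl
  | succ b ih =>
    have hlt : ∀ (z : Fin (2 ^ (b + 1))), (z : ℕ) % 2 ^ b < 2 ^ b :=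
      fun z => Nat.mod_lt _ (by positivity)
    have hlt1 : ∀ (z : Fin (2 ^ b)), 2 ^ b + (z : ℕ) < 2 ^ (b + 1) := by
      intro z
      have := z.isLt
      rw [pow_succ]
      omega
    have hlt0 : ∀ (z : Fin (2 ^ b)), (z : ℕ) < 2 ^ (b + 1) := by
      intro z
      have := z.isLt
      rw [pow_succ]
      omega
    obtain ⟨P1, hP1⟩ := ih (fun C => ⟨(h C : ℕ) % 2 ^ b, hlt _⟩)
      (fun A z => g A ⟨2 ^ b + (z : ℕ), hlt1 z⟩)
    obtain ⟨P0, hP0⟩ := ih (fun C => ⟨(h C : ℕ) % 2 ^ b, hlt _⟩)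
      (fun A z => g A ⟨(z : ℕ), hlt0 z⟩)
    refine ⟨.bob (fun C => decide (2 ^ b ≤ (h C : ℕ))) (fun t => if t then P1 else P0),
      fun A C => ?_⟩
    by_cases hc : 2 ^ b ≤ (h C : ℕ)
    · have e : (⟨2 ^ b + (h C : ℕ) % 2 ^ b, hlt1 ⟨(h C : ℕ) % 2 ^ b, hlt _⟩⟩ :
          Fin (2 ^ (b + 1))) = h C := by
        apply Fin.ext
        have h2 := (h C).isLt
        have h3 : (2 : ℕ) ^ (b + 1) = 2 ^ b * 2 := pow_succ _ _
        have : (h C : ℕ) % 2 ^ b = (h C : ℕ) - 2 ^ b := by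
          rw [Nat.mod_eq_sub_mod hc, Nat.mod_eq_of_lt (by omega)]
        simp only
        omega
      have := hP1 A C
      simp only [e] at this
      simp only [Conv.eval, hc, decide_true, if_true]
      exact this
    · have e : (⟨(h C : ℕ) % 2 ^ b, hlt0 ⟨(h C : ℕ) % 2 ^ b, hlt _⟩⟩ :
          Fin (2 ^ (b + 1))) = h C := by
        apply Fin.ext
        simp only
        exact Nat.mod_eq_of_lt (by omega)
      have := hP0 A C
      simp only [e] at this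
      simp only [Conv.eval, hc, decide_false, Bool.false_eq_true, if_false]
      exact this

/-- The code of a weight. -/
def code (n s : ℕ) (hs : 2 * n ^ 300 < 2 ^ s) (t : ℤ) : Fin (2 ^ s) :=
  ⟨min (t + (n : ℤ) ^ 300).toNat (2 * n ^ 300), lt_of_le_of_lt (min_le_right _ _) hs⟩

/-- The weight with the given code. -/
def dec (n s : ℕ) (z : Fin (2 ^ s)) : ℤ := ((z : ℕ) : ℤ) - (n : ℤ) ^ 300

theorem dec_code (n s : ℕ) (hs : 2 * n ^ 300 < 2 ^ s) (t : ℤ) (ht : |t| ≤ (n : ℤ) ^ 300) :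
    dec n s (code n s hs t) = t := by
  have h1 := abs_le.1 ht
  have h2 : ((t + (n : ℤ) ^ 300).toNat : ℤ) = t + (n : ℤ) ^ 300 :=
    Int.toNat_of_nonneg (by linarith [h1.1])
  have h3 : (t + (n : ℤ) ^ 300).toNat ≤ 2 * n ^ 300 := by
    have : ((t + (n : ℤ) ^ 300).toNat : ℤ) ≤ ((2 * n ^ 300 : ℕ) : ℤ) := by
      rw [h2]; push_cast; linarith [h1.2]
    exact_mod_cast this
  unfold dec code
  simp only [min_eq_left h3]
  rw [h2]
  ring

theorem size_ok (n : ℕ) : 2 * n ^ 300 < 2 ^ (302 * (Nat.log 2 n + 1)) := by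
  have h1 : n < 2 ^ (Nat.log 2 n + 1) := Nat.lt_pow_succ_log_self (by norm_num) n
  have h2 : n ^ 300 < (2 ^ (Nat.log 2 n + 1)) ^ 300 := Nat.pow_lt_pow_left h1 (by norm_num)
  have h3 : (2 : ℕ) ^ (302 * (Nat.log 2 n + 1)) =
      (2 ^ (Nat.log 2 n + 1)) ^ 300 * (2 ^ (Nat.log 2 n + 1)) ^ 2 := by
    rw [← pow_mul, ← pow_mul, ← pow_add]
    congr 1
    ring
  have h4 : 2 ≤ (2 ^ (Nat.log 2 n + 1)) ^ 2 := by
    have : 2 ^ 1 ≤ (2 : ℕ) ^ (Nat.log 2 n + 1) := Nat.pow_le_pow_right (by norm_num) (by omega)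
    nlinarith
  rw [h3]
  calc 2 * n ^ 300 < 2 * (2 ^ (Nat.log 2 n + 1)) ^ 300 := by omega
    _ = (2 ^ (Nat.log 2 n + 1)) ^ 300 * 2 := by ring
    _ ≤ _ := Nat.mul_le_mul_left _ h4

/-- The table of codes as a number. -/
noncomputable def tableEquiv (n s : ℕ) : (Fin n → Fin n → Fin (2 ^ s)) ≃ Fin (2 ^ (n ^ 2 * s)) :=
  Fintype.equivFinOfCardEq (by
    simp only [Fintype.card_fun, Fintype.card_fin]
    rw [← pow_mul, ← pow_mul]
    congr 1
    ring)

theorem side_02_12 {n : ℕ} {j k : Fin n} (hj : (j : ℕ) % 3 = 1) : ¬ Side 0 2 j k := by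
  unfold Side; omega

theorem clerk_own {n : ℕ} {c : Fin n} (w : Wts n) (hc : (c : ℕ) % 3 = 0) (j : Fin n) :
    clerkView c w c j = w c j := by
  unfold clerkView
  rw [if_neg]
  rintro (h | h)
  · unfold Side at h
    omega
  · exact h.2.1 rfl

theorem bob_12 {n : ℕ} {j k : Fin n} (w : Wts n) (hj : (j : ℕ) % 3 = 1) :
    bobView w j k = w j k := by
  unfold bobView hide
  rw [if_neg (side_02_12 hj)]

/-- In a tripartite yes-instance there is a zero triangle with one vertex in every class, in the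
order of the classes. -/
theorem yes_iff_symm {n : ℕ} (I : Inst n) (hs : ∀ i j, I.wt i j = I.wt j i)
    (hT : Tripartite I) :
    I.Yes ↔ ∃ c j k : Fin n, (c : ℕ) % 3 = 0 ∧ (j : ℕ) % 3 = 1 ∧ (k : ℕ) % 3 = 2 ∧
      I.wt c j + I.wt j k + I.wt c k = 0 := by
  constructor
  · rintro ⟨i, j, k, -, -, -, h1, h2, h3, h4⟩
    rw [hT] at h1 h2 h3
    have e1 := hs i j
    have e2 := hs j k
    have e3 := hs i k
    have a1 : (i : ℕ) % 3 < 3 := Nat.mod_lt _ (by norm_num)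
    have a2 : (j : ℕ) % 3 < 3 := Nat.mod_lt _ (by norm_num)
    have a3 : (k : ℕ) % 3 < 3 := Nat.mod_lt _ (by norm_num)
    have key : ((i : ℕ) % 3 = 0 ∧ (j : ℕ) % 3 = 1 ∧ (k : ℕ) % 3 = 2) ∨
        ((i : ℕ) % 3 = 0 ∧ (j : ℕ) % 3 = 2 ∧ (k : ℕ) % 3 = 1) ∨
        ((i : ℕ) % 3 = 1 ∧ (j : ℕ) % 3 = 0 ∧ (k : ℕ) % 3 = 2) ∨
        ((i : ℕ) % 3 = 1 ∧ (j : ℕ) % 3 = 2 ∧ (k : ℕ) % 3 = 0) ∨
        ((i : ℕ) % 3 = 2 ∧ (j : ℕ) % 3 = 0 ∧ (k : ℕ) % 3 = 1) ∨
        ((i : ℕ) % 3 = 2 ∧ (j : ℕ) % 3 = 1 ∧ (k : ℕ) % 3 = 0) := by omega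
    rcases key with h | h | h | h | h | h
    · exact ⟨i, j, k, h.1, h.2.1, h.2.2, by linarith⟩
    · exact ⟨i, k, j, h.1, h.2.2, h.2.1, by linarith⟩
    · exact ⟨j, i, k, h.2.1, h.1, h.2.2, by linarith⟩
    · exact ⟨k, i, j, h.2.2, h.1, h.2.1, by linarith⟩
    · exact ⟨j, k, i, h.2.1, h.2.2, h.1, by linarith⟩
    · exact ⟨k, j, i, h.2.2, h.2.1, h.1, by linarith⟩
  · rintro ⟨c, j, k, hc, hj, hk, h⟩
    have n1 : (c : ℕ) % 3 ≠ (j : ℕ) % 3 := by omega
    have n2 : (j : ℕ) % 3 ≠ (k : ℕ) % 3 := by omega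
    have n3 : (c : ℕ) % 3 ≠ (k : ℕ) % 3 := by omega
    exact ⟨c, j, k, fun e => n1 (by rw [e]), fun e => n2 (by rw [e]), fun e => n3 (by rw [e]),
      (hT _ _).2 n1, (hT _ _).2 n2, (hT _ _).2 n3, h⟩

theorem yes_iff {n : ℕ} (I : Inst n) (hI : I.Valid) (hT : Tripartite I) :
    I.Yes ↔ ∃ c j k : Fin n, (c : ℕ) % 3 = 0 ∧ (j : ℕ) % 3 = 1 ∧ (k : ℕ) % 3 = 2 ∧
      I.wt c j + I.wt j k + I.wt c k = 0 := yes_iff_symm I hI.2.2.1 hT

open Classical in
/-- If Bob sends the whole side `12` to the clerk of every vertex of class `0`, the sum of the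
votes decides all tripartite instances. -/
theorem upper (n : ℕ) (hn : 1 ≤ n) : ∃ H : Fin n → Inst n → ℝ,
    (∀ r, IsConv 0 (n ^ 2 * (302 * (Nat.log 2 n + 1))) (H r)) ∧
    ∀ I : Inst n, I.Valid → Tripartite I → (0 < ∑ r, H r I ↔ I.Yes) := by
  set s : ℕ := 302 * (Nat.log 2 n + 1) with hs
  have hsz : 2 * n ^ 300 < 2 ^ s := size_ok n
  let h : Wts n → Fin (2 ^ (n ^ 2 * s)) := fun C =>
    tableEquiv n s (fun u v => code n s hsz (C u v))
  let c : Fin n → Fin n := fun r => if (r : ℕ) % 3 = 0 then r else ⟨0, hn⟩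
  have hc : ∀ r, ((c r : Fin n) : ℕ) % 3 = 0 := by
    intro r
    simp only [c]
    split_ifs with h1
    · exact h1
    · rfl
  let g : Fin n → Wts n → Fin (2 ^ (n ^ 2 * s)) → ℝ := fun r A z =>
    if ∃ j k : Fin n, (j : ℕ) % 3 = 1 ∧ (k : ℕ) % 3 = 2 ∧
      A (c r) j + dec n s ((tableEquiv n s).symm z j k) + A (c r) k = 0 then 1 else 0
  choose P hP using fun r => oneway (n ^ 2 * s) h (g r)
  refine ⟨fun r I => (P r).eval (clerkView (c r) I.wt) (bobView I.wt),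
    fun r => ⟨c r, hc r, fun _ => P r, fun I _ => rfl⟩, ?_⟩
  intro I hI hT
  have hval : ∀ r, (P r).eval (clerkView (c r) I.wt) (bobView I.wt) =
      if ∃ j k : Fin n, (j : ℕ) % 3 = 1 ∧ (k : ℕ) % 3 = 2 ∧
        I.wt (c r) j + I.wt j k + I.wt (c r) k = 0 then 1 else 0 := by
    intro r
    rw [hP]
    simp only [g, h, Equiv.symm_apply_apply]
    refine if_congr ?_ rfl rfl
    refine exists_congr fun j => exists_congr fun k => ?_
    constructor
    · rintro ⟨hj, hk, e⟩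
      rw [clerk_own _ (hc r), clerk_own _ (hc r), bob_12 _ hj,
        dec_code n s hsz _ (hI.2.2.2 j k)] at e
      exact ⟨hj, hk, e⟩
    · rintro ⟨hj, hk, e⟩
      rw [clerk_own _ (hc r), clerk_own _ (hc r), bob_12 _ hj,
        dec_code n s hsz _ (hI.2.2.2 j k)]
      exact ⟨hj, hk, e⟩
  rw [yes_iff I hI hT]
  simp only [hval]
  constructor
  · intro hpos
    by_contra hno
    refine absurd hpos (not_lt.2 (le_of_eq (Finset.sum_eq_zero fun r _ => if_neg ?_)))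
    rintro ⟨j, k, hj, hk, e⟩
    exact hno ⟨c r, j, k, hc r, hj, hk, e⟩
  · rintro ⟨r, j, k, hr, hj, hk, e⟩
    refine Finset.sum_pos' (fun i _ => by split_ifs <;> norm_num) ⟨r, Finset.mem_univ _, ?_⟩
    have : c r = r := by simp only [c]; rw [if_pos hr]
    rw [if_pos ⟨j, k, hj, hk, by rw [this]; exact e⟩]
    norm_num

end Pool.Agent.Helper95.RV
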