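import Mathlib
import Pool.Agent.Helper5.RV.Sys
import Pool.Agent.Helper95.RV.Upper

/-!
# The instances `mk x y w`, and free voters on them
-/

set_option autoImplicit false

namespace Pool.Agent.Helper95.RV

open Pool.Agent.Helper22.ETModel Pool.Agent.Helper8.VT Pool.Agent.Helper5.RV

variable {n m : ℕ}

theorem wts_01 (x : Cls n 0 × Cls n 1 → Fin m) (y : Cls n 1 × Cls n 2 → Fin m)
    (w : Cls n 0 → Cls n 2 → Fin (2 * m)) (u : Cls n 0) (v : Cls n 1) :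
    wts x y w u v = ((x (u, v) : ℕ) : ℤ) := by
  unfold wts
  rw [dif_pos ⟨u.2, v.2⟩]

theorem wts_12 (x : Cls n 0 × Cls n 1 → Fin m) (y : Cls n 1 × Cls n 2 → Fin m)
    (w : Cls n 0 → Cls n 2 → Fin (2 * m)) (u : Cls n 1) (v : Cls n 2) :
    wts x y w u v = ((y (u, v) : ℕ) : ℤ) := by
  have hu := u.2
  have hv := v.2
  unfold wts
  rw [dif_neg (by omega), dif_neg (by omega), dif_pos ⟨u.2, v.2⟩]

theorem wts_02 (x : Cls n 0 × Cls n 1 → Fin m) (y : Cls n 1 × Cls n 2 → Fin m)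
    (w : Cls n 0 → Cls n 2 → Fin (2 * m)) (u : Cls n 0) (v : Cls n 2) :
    wts x y w u v = -((w u v : ℕ) : ℤ) := by
  have hu := u.2
  have hv := v.2
  unfold wts
  rw [dif_neg (by omega), dif_neg (by omega), dif_neg (by omega), dif_neg (by omega),
    dif_pos ⟨u.2, v.2⟩]

theorem wts_symm (x : Cls n 0 × Cls n 1 → Fin m) (y : Cls n 1 × Cls n 2 → Fin m)
    (w : Cls n 0 → Cls n 2 → Fin (2 * m)) (u v : Fin n) :
    wts x y w u v = wts x y w v u := by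
  have a1 : (u : ℕ) % 3 < 3 := Nat.mod_lt _ (by norm_num)
  have a2 : (v : ℕ) % 3 < 3 := Nat.mod_lt _ (by norm_num)
  unfold wts
  by_cases h1 : (u : ℕ) % 3 = 0 ∧ (v : ℕ) % 3 = 1
  · rw [dif_pos h1, dif_neg (by omega), dif_pos ⟨h1.2, h1.1⟩]
  by_cases h2 : (u : ℕ) % 3 = 1 ∧ (v : ℕ) % 3 = 0
  · rw [dif_neg h1, dif_pos h2, dif_pos ⟨h2.2, h2.1⟩]
  by_cases h3 : (u : ℕ) % 3 = 1 ∧ (v : ℕ) % 3 = 2
  · rw [dif_neg h1, dif_neg h2, dif_pos h3, dif_neg (by omega), dif_neg (by omega),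
      dif_neg (by omega), dif_pos ⟨h3.2, h3.1⟩]
  by_cases h4 : (u : ℕ) % 3 = 2 ∧ (v : ℕ) % 3 = 1
  · rw [dif_neg h1, dif_neg h2, dif_neg h3, dif_pos h4, dif_neg (by omega), dif_neg (by omega),
      dif_pos ⟨h4.2, h4.1⟩]
  by_cases h5 : (u : ℕ) % 3 = 0 ∧ (v : ℕ) % 3 = 2
  · rw [dif_neg h1, dif_neg h2, dif_neg h3, dif_neg h4, dif_pos h5, dif_neg (by omega),
      dif_neg (by omega), dif_neg (by omega), dif_neg (by omega), dif_neg (by omega),
      dif_pos ⟨h5.2, h5.1⟩]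
  by_cases h6 : (u : ℕ) % 3 = 2 ∧ (v : ℕ) % 3 = 0
  · rw [dif_neg h1, dif_neg h2, dif_neg h3, dif_neg h4, dif_neg h5, dif_pos h6,
      dif_neg (by omega), dif_neg (by omega), dif_neg (by omega), dif_neg (by omega),
      dif_pos ⟨h6.2, h6.1⟩]
  · rw [dif_neg h1, dif_neg h2, dif_neg h3, dif_neg h4, dif_neg h5, dif_neg h6,
      dif_neg (by omega), dif_neg (by omega), dif_neg (by omega), dif_neg (by omega),
      dif_neg (by omega), dif_neg (by omega)]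

theorem wts_bound (x : Cls n 0 × Cls n 1 → Fin m) (y : Cls n 1 × Cls n 2 → Fin m)
    (w : Cls n 0 → Cls n 2 → Fin (2 * m)) (u v : Fin n) :
    |wts x y w u v| ≤ ((2 * m : ℕ) : ℤ) := by
  have fx : ∀ z : Fin m, |((z : ℕ) : ℤ)| ≤ ((2 * m : ℕ) : ℤ) := by
    intro z
    have := z.isLt
    rw [abs_of_nonneg (by positivity)]
    exact_mod_cast (by omega : (z : ℕ) ≤ 2 * m)
  have fw : ∀ z : Fin (2 * m), |-((z : ℕ) : ℤ)| ≤ ((2 * m : ℕ) : ℤ) := by
    intro z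
    have := z.isLt
    rw [abs_neg, abs_of_nonneg (by positivity)]
    exact_mod_cast (by omega : (z : ℕ) ≤ 2 * m)
  unfold wts
  split_ifs
  · exact fx _
  · exact fx _
  · exact fx _
  · exact fx _
  · exact fw _
  · exact fw _
  · rw [abs_zero]
    positivity

theorem mk_valid (hm : 2 * m ≤ n ^ 300) (x : Cls n 0 × Cls n 1 → Fin m)
    (y : Cls n 1 × Cls n 2 → Fin m) (w : Cls n 0 → Cls n 2 → Fin (2 * m)) :
    (mk x y w).Valid := by
  refine ⟨fun i j => ?_, fun i => ?_, fun i j => wts_symm x y w i j, fun i j => ?_⟩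
  · simp only [mk, decide_eq_decide]
    exact ne_comm
  · simp [mk]
  · refine (wts_bound x y w i j).trans ?_
    exact_mod_cast hm

theorem mk_tripartite (x : Cls n 0 × Cls n 1 → Fin m)
    (y : Cls n 1 × Cls n 2 → Fin m) (w : Cls n 0 → Cls n 2 → Fin (2 * m)) :
    Tripartite (mk x y w) := by
  intro u v
  simp [mk]

theorem mk_yes (x : Cls n 0 × Cls n 1 → Fin m)
    (y : Cls n 1 × Cls n 2 → Fin m) (w : Cls n 0 → Cls n 2 → Fin (2 * m)) :
    (mk x y w).Yes ↔ YesC x y w := by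
  rw [yes_iff_symm _ (fun i j => wts_symm x y w i j) (mk_tripartite x y w)]
  unfold YesC
  constructor
  · rintro ⟨c, j, k, hc, hj, hk, e⟩
    refine ⟨⟨c, hc⟩, ⟨j, hj⟩, ⟨k, hk⟩, ?_⟩
    have e1 := wts_01 x y w ⟨c, hc⟩ ⟨j, hj⟩
    have e2 := wts_12 x y w ⟨j, hj⟩ ⟨k, hk⟩
    have e3 := wts_02 x y w ⟨c, hc⟩ ⟨k, hk⟩
    simp only [mk] at e
    simp only at e1 e2 e3
    rw [e1, e2, e3] at e
    apply Fin.ext
    simp only [pa]
    omega
  · rintro ⟨c, j, k, e⟩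
    refine ⟨c, j, k, c.2, j.2, k.2, ?_⟩
    simp only [mk]
    rw [wts_01, wts_12, wts_02]
    have := congrArg Fin.val e
    simp only [pa] at this
    omega

theorem hide_01 (x x' : Cls n 0 × Cls n 1 → Fin m) (y : Cls n 1 × Cls n 2 → Fin m)
    (w : Cls n 0 → Cls n 2 → Fin (2 * m)) :
    hide 0 1 (wts x y w) = hide 0 1 (wts x' y w) := by
  funext u v
  unfold hide
  by_cases h : Side 0 1 u v
  · rw [if_pos h, if_pos h]
  · rw [if_neg h, if_neg h]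
    unfold Side at h
    have h3 : ¬ ((u : ℕ) % 3 = 0 ∧ (v : ℕ) % 3 = 1) := by omega
    have h4 : ¬ ((u : ℕ) % 3 = 1 ∧ (v : ℕ) % 3 = 0) := by omega
    unfold wts
    simp only [dif_neg h3, dif_neg h4]

theorem hide_12 (x : Cls n 0 × Cls n 1 → Fin m) (y y' : Cls n 1 × Cls n 2 → Fin m)
    (w : Cls n 0 → Cls n 2 → Fin (2 * m)) :
    hide 1 2 (wts x y w) = hide 1 2 (wts x y' w) := by
  funext u v
  unfold hide
  by_cases h : Side 1 2 u v
  · rw [if_pos h, if_pos h]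
  · rw [if_neg h, if_neg h]
    unfold Side at h
    have h3 : ¬ ((u : ℕ) % 3 = 1 ∧ (v : ℕ) % 3 = 2) := by omega
    have h4 : ¬ ((u : ℕ) % 3 = 2 ∧ (v : ℕ) % 3 = 1) := by omega
    unfold wts
    simp only [dif_neg h3, dif_neg h4]

theorem hide_02 (x : Cls n 0 × Cls n 1 → Fin m) (y : Cls n 1 × Cls n 2 → Fin m)
    (w w' : Cls n 0 → Cls n 2 → Fin (2 * m)) :
    hide 0 2 (wts x y w) = hide 0 2 (wts x y w') := by
  funext u v
  unfold hide
  by_cases h : Side 0 2 u v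
  · rw [if_pos h, if_pos h]
  · rw [if_neg h, if_neg h]
    unfold Side at h
    have h3 : ¬ ((u : ℕ) % 3 = 0 ∧ (v : ℕ) % 3 = 2) := by omega
    have h4 : ¬ ((u : ℕ) % 3 = 2 ∧ (v : ℕ) % 3 = 0) := by omega
    unfold wts
    simp only [dif_neg h3, dif_neg h4]

/-- Free voters have normal forms without messages. -/
theorem nform_free (hm0 : 0 < m) (hm : 2 * m ≤ n ^ 300) (H : Inst n → ℝ) (h : IsFree H) :
    NForm m 0 (fun x y w => H (mk (n := n) x y w)) := by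
  obtain ⟨p, q, hpq, hq, F, hF⟩ := h
  have hcase : (p = 0 ∧ q = 1) ∨ (p = 0 ∧ q = 2) ∨ (p = 1 ∧ q = 2) := by omega
  let fl : Flags n := fun u v => decide ((u : ℕ) % 3 ≠ (v : ℕ) % 3)
  let x₀ : Cls n 0 × Cls n 1 → Fin m := fun _ => ⟨0, hm0⟩
  let y₀ : Cls n 1 × Cls n 2 → Fin m := fun _ => ⟨0, hm0⟩
  let w₀ : Cls n 0 → Cls n 2 → Fin (2 * m) := fun _ _ => ⟨0, by omega⟩
  have key : ∀ x y w, H (mk x y w) = F fl (hide p q (wts x y w)) :=
    fun x y w => hF _ (mk_valid hm x y w)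
  rcases hcase with ⟨rfl, rfl⟩ | ⟨rfl, rfl⟩ | ⟨rfl, rfl⟩
  · refine ⟨fun _ _ => 0, fun _ _ => 0, fun y w => F fl (hide 0 1 (wts x₀ y w)), fun _ => 0,
      fun _ _ _ _ => 0, fun _ _ _ => ⟨0, by norm_num⟩, by simp, fun x y w => ?_⟩
    simp only [key, Finset.sum_const_zero, add_zero, zero_add]
    rw [hide_01 x x₀ y w]
  · refine ⟨fun x y => F fl (hide 0 2 (wts x y w₀)), fun _ _ => 0, fun _ _ => 0, fun _ => 0,
      fun _ _ _ _ => 0, fun _ _ _ => ⟨0, by norm_num⟩, by simp, fun x y w => ?_⟩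
    simp only [key, Finset.sum_const_zero, add_zero]
    rw [hide_02 x y w w₀]
  · refine ⟨fun _ _ => 0, fun x w => F fl (hide 1 2 (wts x y₀ w)), fun _ _ => 0, fun _ => 0,
      fun _ _ _ _ => 0, fun _ _ _ => ⟨0, by norm_num⟩, by simp, fun x y w => ?_⟩
    simp only [key, Finset.sum_const_zero, add_zero, zero_add]
    rw [hide_12 x y y₀ w]

end Pool.Agent.Helper95.RV
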