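import Mathlib
import Pool.Agent.Helper5.RV.Defs

/-!
# Conversations as messages

A conversation in which the clerk says at most `a` and Bob at most `b` bits is a message from Bob
with at most `2 ^ (b 2 ^ a)` values: his answers on the whole tree.
-/

set_option autoImplicit false

namespace Pool.Agent.Helper95.RV

open Pool.Agent.Helper22.ETModel Pool.Agent.Helper8.VT Pool.Agent.Helper5.RV

/-- The vote of a conversation is a function of what the clerk knows and of a message from Bob with
at most `2 ^ (b * 2 ^ a)` values. -/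
theorem message {n a b : ℕ} (P : Conv n a b) : ∃ (D : Type) (_ : Fintype D),
    Fintype.card D ≤ 2 ^ (b * 2 ^ a) ∧ ∃ (h : Wts n → D) (g : Wts n → D → ℝ),
      ∀ A C, P.eval A C = g A (h C) := by
  induction P with
  | @vote a b v =>
    exact ⟨Unit, inferInstance, by simpa using Nat.one_le_two_pow, fun _ => (), fun A _ => v A,
      fun A C => rfl⟩
  | @clerk a b bit next ih =>
    obtain ⟨D1, F1, c1, h1, g1, e1⟩ := ih true
    obtain ⟨D0, F0, c0, h0, g0, e0⟩ := ih false
    refine ⟨D1 × D0, inferInstance, ?_, fun C => (h1 C, h0 C),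
      fun A z => if bit A then g1 A z.1 else g0 A z.2, fun A C => ?_⟩
    · rw [Fintype.card_prod]
      calc Fintype.card D1 * Fintype.card D0 ≤ 2 ^ (b * 2 ^ a) * 2 ^ (b * 2 ^ a) :=
            Nat.mul_le_mul c1 c0
        _ = 2 ^ (b * 2 ^ (a + 1)) := by
            rw [← pow_add]
            congr 1
            ring
    · simp only [Conv.eval]
      by_cases hb : bit A = true
      · simp only [hb, if_true]
        exact e1 A C
      · simp only [Bool.not_eq_true] at hb
        simp only [hb, Bool.false_eq_true, if_false]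
        exact e0 A C
  | @bob a b bit next ih =>
    obtain ⟨D1, F1, c1, h1, g1, e1⟩ := ih true
    obtain ⟨D0, F0, c0, h0, g0, e0⟩ := ih false
    refine ⟨D1 ⊕ D0, inferInstance, ?_,
      fun C => if bit C then Sum.inl (h1 C) else Sum.inr (h0 C),
      fun A z => Sum.elim (g1 A) (g0 A) z, fun A C => ?_⟩
    · rw [Fintype.card_sum]
      calc Fintype.card D1 + Fintype.card D0 ≤ 2 ^ (b * 2 ^ a) + 2 ^ (b * 2 ^ a) :=
            Nat.add_le_add c1 c0
        _ = 2 ^ (b * 2 ^ a + 1) := by
            rw [pow_succ]
            ring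
        _ ≤ 2 ^ ((b + 1) * 2 ^ a) := by
            apply Nat.pow_le_pow_right (by norm_num)
            have : 1 ≤ 2 ^ a := Nat.one_le_two_pow
            nlinarith
    · simp only [Conv.eval]
      by_cases hb : bit C = true
      · simp only [hb, if_true, Sum.elim_inl]
        exact e1 A C
      · simp only [Bool.not_eq_true] at hb
        simp only [hb, Bool.false_eq_true, if_false, Sum.elim_inr]
        exact e0 A C

/-- The same with a message in `Fin (2 ^ (b * 2 ^ a))`. -/
theorem digest {n a b : ℕ} (P : Conv n a b) : ∃ (h : Wts n → Fin (2 ^ (b * 2 ^ a)))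
    (g : Wts n → Fin (2 ^ (b * 2 ^ a)) → ℝ), ∀ A C, P.eval A C = g A (h C) := by
  obtain ⟨D, _, hc, h, g, e⟩ := message P
  have : Nonempty D := ⟨h fun _ _ => 0⟩
  obtain ⟨ι⟩ := Function.Embedding.nonempty_of_card_le
    (show Fintype.card D ≤ Fintype.card (Fin (2 ^ (b * 2 ^ a))) by simpa using hc)
  refine ⟨fun C => ι (h C), fun A z => g A (Function.invFun ι z), fun A C => ?_⟩
  simp only [Function.leftInverse_invFun ι.injective (h C)]
  exact e A C

end Pool.Agent.Helper95.RV
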