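import Mathlib
import Pool.Agent.Helper5.RV.Stmt
import Pool.Agent.Helper95.RV.Upper

/-!
# Matrices and row-wise votes

The vote of the clerk of the vertex `i`, an arbitrary function of what he knows and of the rows `i`
of `R` integer matrices with entries bounded by `n ^ c`, is a conversation with one message.
-/

set_option autoImplicit false

namespace Pool.Agent.Helper95.RV

open Pool.Agent.Helper22.ETModel Pool.Agent.Helper8.VT Pool.Agent.Helper8.UV Pool.Agent.Helper5.RV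

/-- The code of an integer with absolute value at most `B`. -/
def codeB (B s : ℕ) (hs : 2 * B < 2 ^ s) (t : ℤ) : Fin (2 ^ s) :=
  ⟨min (t + (B : ℤ)).toNat (2 * B), lt_of_le_of_lt (min_le_right _ _) hs⟩

/-- The integer with the given code. -/
def decB (B s : ℕ) (z : Fin (2 ^ s)) : ℤ := ((z : ℕ) : ℤ) - (B : ℤ)

theorem decB_codeB (B s : ℕ) (hs : 2 * B < 2 ^ s) (t : ℤ) (ht : |t| ≤ (B : ℤ)) :
    decB B s (codeB B s hs t) = t := by
  have h1 := abs_le.1 ht
  have h2 : ((t + (B : ℤ)).toNat : ℤ) = t + (B : ℤ) :=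
    Int.toNat_of_nonneg (by linarith [h1.1])
  have h3 : (t + (B : ℤ)).toNat ≤ 2 * B := by
    have : ((t + (B : ℤ)).toNat : ℤ) ≤ ((2 * B : ℕ) : ℤ) := by
      rw [h2]; push_cast; linarith [h1.2]
    exact_mod_cast this
  unfold decB codeB
  simp only [min_eq_left h3]
  rw [h2]
  ring

theorem size_c (n c : ℕ) : 2 * n ^ c < 2 ^ (c * (Nat.log 2 n + 1) + 2) := by
  have h1 : n ≤ 2 ^ (Nat.log 2 n + 1) := (Nat.lt_pow_succ_log_self (by norm_num) n).le
  have h2 : n ^ c ≤ (2 ^ (Nat.log 2 n + 1)) ^ c := Nat.pow_le_pow_left h1 c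
  have h3 : (2 : ℕ) ^ (c * (Nat.log 2 n + 1) + 2) = (2 ^ (Nat.log 2 n + 1)) ^ c * 4 := by
    rw [pow_add, ← pow_mul, mul_comm c]
    norm_num
  have h4 : 0 < (2 ^ (Nat.log 2 n + 1)) ^ c := by positivity
  rw [h3]
  omega

/-- A matrix of codes as a number. -/
noncomputable def tableE (R n s : ℕ) : (Fin R → Fin n → Fin (2 ^ s)) ≃ Fin (2 ^ (R * n * s)) :=
  Fintype.equivFinOfCardEq (by
    simp only [Fintype.card_fun, Fintype.card_fin]
    rw [← pow_mul, ← pow_mul]
    congr 1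
    ring)

theorem matVote_conv {n R c : ℕ} (P : Fin R → Flags n → Wts n → Matrix (Fin n) (Fin n) ℤ)
    (hP : ∀ s f w i k, |P s f w i k| ≤ (n : ℤ) ^ c)
    (g : Flags n → Wts n → (Fin R → Fin n → ℤ) → ℝ) (i : Fin n) (hi : (i : ℕ) % 3 = 0) :
    IsConv 0 (R * n * (c * (Nat.log 2 n + 1) + 2)) (matVote P g i) := by
  set s : ℕ := c * (Nat.log 2 n + 1) + 2 with hs
  have hsz : 2 * n ^ c < 2 ^ s := size_c n c
  let h : Flags n → Wts n → Fin (2 ^ (R * n * s)) := fun f C =>
    tableE R n s (fun t k => codeB (n ^ c) s hsz (P t f C i k))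
  let g' : Flags n → Wts n → Fin (2 ^ (R * n * s)) → ℝ := fun f A z =>
    g f A (fun t k => decB (n ^ c) s ((tableE R n s).symm z t k))
  choose Q hQ using fun f => oneway (R * n * s) (h f) (g' f)
  refine ⟨i, hi, Q, fun I _ => ?_⟩
  rw [hQ]
  simp only [g', h, Equiv.symm_apply_apply, matVote]
  congr 1
  funext t k
  rw [decB_codeB (n ^ c) s hsz _ (by
    have := hP t I.flag (bobView I.wt) i k
    push_cast
    exact this)]

theorem matrix_of_lower (h : LowerStatement) : MatrixStatement := by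
  intro n R c Ω ι _ _ _ F P g hF hP hD
  set b : ℕ := R * n * (c * (Nat.log 2 n + 1) + 2) with hb
  let κ : Ω → (ι ⊕ {i : Fin n // (i : ℕ) % 3 = 0}) → ℝ := fun _ =>
    Sum.elim (fun _ => 0) (fun _ => (b : ℝ))
  have hprice : ∀ ω r, Pool.Agent.Helper5.RV.Price (Sum.elim (F ω)
      (fun i : {i : Fin n // (i : ℕ) % 3 = 0} => matVote (P ω) (g ω i) i) r) (κ ω r) := by
    intro ω r
    rcases r with r | i
    · exact Or.inl ⟨rfl, hF ω r⟩
    · refine Or.inr ⟨0, b, matVote_conv (P ω) (hP ω) (g ω i) i i.2, ?_⟩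
      simp [κ]
  have key := h n Ω (ι ⊕ {i : Fin n // (i : ℕ) % 3 = 0}) _ κ hprice hD
  have hsum : (∑ ω : Ω, ∑ r, κ ω r) / (Fintype.card Ω : ℝ) =
      (Fintype.card {i : Fin n // (i : ℕ) % 3 = 0} : ℝ) * b := by
    have hΩ : (Fintype.card Ω : ℝ) ≠ 0 := by exact_mod_cast Fintype.card_ne_zero
    simp only [κ, Fintype.sum_sum_type, Sum.elim_inl, Sum.elim_inr, Finset.sum_const_zero,
      zero_add, Finset.sum_const, Finset.card_univ, nsmul_eq_mul]
    field_simp
  rw [hsum] at key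
  rcases Nat.eq_zero_or_pos n with h0 | hpos
  · subst h0
    simp
    positivity
  have hcard : (Fintype.card {i : Fin n // (i : ℕ) % 3 = 0} : ℝ) ≤ n := by
    have := Fintype.card_subtype_le (fun i : Fin n => (i : ℕ) % 3 = 0)
    rw [Fintype.card_fin] at this
    exact_mod_cast this
  have hn : (0 : ℝ) < n := by exact_mod_cast hpos
  have hbr : (b : ℝ) = R * n * (c * (Nat.log 2 n + 1) + 2) := by
    rw [hb]; push_cast; ring
  have h2 : (Fintype.card {i : Fin n // (i : ℕ) % 3 = 0} : ℝ) * b ≤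
      n * (R * n * (c * (Nat.log 2 n + 1) + 2)) := by
    rw [← hbr]
    exact mul_le_mul_of_nonneg_right hcard (Nat.cast_nonneg _)
  have h3 : (n : ℝ) ^ 2 * ((n : ℝ) * (Real.logb 2 n - 30)) ≤
      (n : ℝ) ^ 2 * (1000 * (R * (c * (Nat.log 2 n + 1) + 2))) := by
    nlinarith
  exact le_of_mul_le_mul_left h3 (by positivity)

end Pool.Agent.Helper95.RV
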